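import Pool.Agent.VMX.StmtsB

/-!
# VMX squad, row FLM: boxes in the directions `J` at a boundary point of the new slice
-/

set_option autoImplicit false

open Matrix Filter Topology

namespace Pool.Agent.VMX.H25

open Pool.Agent.PFS Pool.Agent.PFJ Pool.Agent.NBT Pool.Agent.VMX

/-- the box condition with a coefficient -/
theorem box_smul {n K : ℕ} {C : Set (V n)} (hP : PCone C) {w : Fin K → V n}
    {I : Finset (Fin K)} {L : Submodule ℝ (V n)} (hL : IB C w I L) {v : V n} (hv : v ∈ L)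
    {A : ℝ} (hA : 0 < A) (h : v + A • fS w Iᶜ ∈ closure C) : v ∈ closure C := by
  have h1 := hP.cl_smul h (inv_pos.2 hA).le
  rw [smul_add, smul_smul, inv_mul_cancel₀ hA.ne', one_smul] at h1
  have h2 := hL.box _ (L.smul_mem _ hv) h1
  have h3 := hP.cl_smul h2 hA.le
  rwa [smul_smul, mul_inv_cancel₀ hA.ne', one_smul] at h3

theorem flm (hZPF : ZpfStmt) (hZPT : ZptStmt) (hZFE : ZfeStmt) (hSLA : SlaStmt)
    (hSLD : SldStmt) (hCES : CesStmt) (hTES : TesStmt) (hFLB : FlbStmt) : FlmStmt := by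
  intro n C Γ Γ₀ K p J c F hSL z Fz j hjp hjJ m hmJ hBj hBv h' hBd hne
  have hcc : CC C Γ := hSL.cc
  have hP : PCone C := hcc.toPCone
  have hz : IsPES C Γ z := hSL.pes z Fz
  have hzcl : ∀ i, z i ∈ closure C := fun i => hz.1.cl i
  have hmp : m ≠ p := by rintro rfl; exact hSL.pJ hmJ
  have hmj : m ≠ j := by rintro rfl; exact hjJ hmJ
  have hlin := Pool.Agent.PFS.H60.lin n C hP (Fin K) z hz.1
  have hz0 : ∀ i, z i ≠ 0 := fun i => hlin.ne_zero i
  have hθ : Tendsto (fun k : ℕ => (k : ℝ)) atTop atTop := tendsto_natCast_atTop_atTop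
  have mem_j : m ∈ ({p, j} : Finset (Fin K))ᶜ := by
    simp only [Finset.mem_compl, Finset.mem_insert, Finset.mem_singleton, not_or]
    exact ⟨hmp, hmj⟩
  have mem_m : j ∈ ({p, m} : Finset (Fin K))ᶜ := by
    simp only [Finset.mem_compl, Finset.mem_insert, Finset.mem_singleton, not_or]
    exact ⟨hjp, hmj.symm⟩
  have ne1 : (({p, j} : Finset (Fin K))ᶜ).Nonempty := ⟨m, mem_j⟩
  have ne2 : (({p, m} : Finset (Fin K))ᶜ).Nonempty := ⟨j, mem_m⟩
  have nc1 : ((({p, j} : Finset (Fin K))ᶜ)ᶜ).Nonempty := by rw [compl_compl]; exact ⟨p, by simp⟩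
  have nc2 : ((({p, m} : Finset (Fin K))ᶜ)ᶜ).Nonempty := by rw [compl_compl]; exact ⟨p, by simp⟩
  obtain ⟨φ1, g1, s1, T1, L1, -, hg1, hZ1, -⟩ := hZFE n C Γ Γ₀ hcc K F hSL.toFAM z Fz _ ne1 nc1 _ hθ
  obtain ⟨φ2, g2, s2, T2, L2, -, hg2, hZ2, -⟩ := hZFE n C Γ Γ₀ hcc K F hSL.toFAM z Fz _ ne2 nc2 _ hθ
  obtain ⟨B, τ, ρ, τp, τm, ρp, ρj, hT1E, hτ, hB1, hB2, hB3, -⟩ :=
    hFLB n C Γ Γ₀ K p J c F hSL z Fz j hjp hjJ m hmJ _ _ g1 g2 s1 s2 T1 L1 T2 L2 hg1 hg2 hZ1 hZ2
      hBj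
  obtain ⟨P1pos, -, -, P1four, -⟩ := hZPF n C Γ hcc _ _ (fS_cl hP hzcl _) (fS_cl hP hzcl _) _ _ _
    _ _ hZ1
  obtain ⟨P2pos, P2u, -, -, -⟩ := hZPF n C Γ hcc _ _ (fS_cl hP hzcl _) (fS_cl hP hzcl _) _ _ _
    _ _ hZ2
  obtain ⟨-, -, -, -, Q1⟩ := hZPT n C Γ hcc K z hz _ ne1 nc1 _ _ _ _ _ hZ1
  obtain ⟨-, -, T2iff, -, -⟩ := hTES n C Γ Γ₀ K p J c F hSL z Fz m hmJ _ _ _ _ _ hg2 hZ2
  obtain ⟨⟨hpE, hmE, -⟩, hCes2, -, -, -⟩ := hCES n C Γ Γ₀ K p J c F hSL z Fz m hmJ
  set E : Submodule ℝ (V n) := Es C F p m z with hE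
  set Ej : Submodule ℝ (V n) := Es C F p j z with hEj
  have hBm : IB C z {p, m} E := hSL.box z Fz m hmJ
  have hpj : z p ∈ Ej := hBj.mem p (by simp)
  have hjj : z j ∈ Ej := hBj.mem j (by simp)
  -- injectivity
  have Q1' : ∀ y ∈ Ej, T1 y ∈ closure C → y ∈ closure C := by
    intro y hy h
    refine Q1 Ej ?_ y hy h
    rw [compl_compl]; exact hBj
  have inj1 : ∀ y ∈ Ej, T1 y = 0 → y = 0 := by
    intro y hy h
    refine hP.salient y (Q1' y hy (by rw [h]; exact hP.zero_cl)) (Q1' (-y) (Ej.neg_mem hy) ?_)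
    rw [map_neg, h, neg_zero]; exact hP.zero_cl
  have inj2 : ∀ u ∈ E, T2 u = 0 → u = 0 := by
    intro u hu h
    refine hP.salient u ((T2iff u hu).1 (by rw [h]; exact hP.zero_cl))
      ((T2iff (-u) (E.neg_mem hu)).1 ?_)
    rw [map_neg, h, neg_zero]; exact hP.zero_cl
  -- (a)
  obtain ⟨hh'E, hh'cl, hh'0, hh'u⟩ := hBd
  have hunitj : Unt C Ej (h' + z j) :=
    (hSLA n C Γ hcc K hSL.three hSL.maxc z hz p j hjp.symm Ej hBj).1 h' hh'E (z j) hjj hh'cl
      (hzcl j) (ind2_of_ne (hz0 j) hne)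
  have hT2zp : T2 (z p) ≠ 0 := fun h => hz0 p (inj2 _ hpE h)
  have hρ : 0 < ρ h' := by
    obtain ⟨M, hM, hM1⟩ := hunitj.2.2 (z p) hpj
    have h1 := P2pos _ hM1
    rw [map_sub, map_smul, map_add, (hB1 h' hh'E).2.2, (hB1 (z j) hjj).2.2, ρj, zero_smul,
      add_zero, smul_smul] at h1
    by_contra hcon
    push Not at hcon
    have h2 : (M * ρ h') • T2 (z p) - T2 (z p) = -((1 - M * ρ h') • T2 (z p)) := by
      rw [sub_smul, one_smul]; abel
    rw [h2] at h1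
    have h3 : 0 < 1 - M * ρ h' := by nlinarith
    have h4 : (1 - M * ρ h') • T2 (z p) = 0 :=
      hP.salient _ (hP.cl_smul (P2pos _ (hzcl p)) h3.le) h1
    rcases smul_eq_zero.1 h4 with h5 | h5
    · linarith
    · exact hT2zp h5
  obtain ⟨h0, hh0⟩ : ∃ h0 : V n, h0 = (ρ h')⁻¹ • h' := ⟨_, rfl⟩
  have h0E : h0 ∈ Ej := by rw [hh0]; exact Ej.smul_mem _ hh'E
  have h0cl : h0 ∈ closure C := by rw [hh0]; exact hP.cl_smul hh'cl (inv_pos.2 hρ).le
  have hback : h' = ρ h' • h0 := by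
    rw [hh0, smul_smul, mul_inv_cancel₀ hρ.ne', one_smul]
  have h00 : h0 ≠ 0 := by
    intro h
    rw [h, smul_zero] at hback
    exact hh'0 hback
  have hρ0 : ρ h0 = 1 := by
    rw [hh0, map_smul, smul_eq_mul, inv_mul_cancel₀ hρ.ne']
  have h0u : ¬ Unt C Ej h0 := by
    intro h
    apply hh'u
    refine ⟨hh'E, hh'cl, fun y hy => ?_⟩
    obtain ⟨M, hM, hM1⟩ := h.2.2 y hy
    refine ⟨M * (ρ h')⁻¹, mul_pos hM (inv_pos.2 hρ), ?_⟩
    rw [mul_smul, ← hh0]
    exact hM1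
  have h0ne : ∀ a : ℝ, h0 ≠ a • z j := by
    intro a h
    apply hne (ρ h' * a)
    rw [mul_smul, ← h]
    exact hback
  set Φ : V n →ₗ[ℝ] V n := B h0 with hΦ
  have Φp : Φ (z p) = h0 := (hB1 h0 h0E).1
  have Φm : Φ (z m) = z m := by
    have h := (hB1 h0 h0E).2.1
    rw [hρ0, one_smul] at h
    exact h
  have ΦT2 : ∀ u ∈ E, T2 (Φ u) = T2 u := by
    intro u hu
    have h := (hB2 h0 h0E u hu).2
    rw [hρ0, one_smul] at h
    exact h
  have ΦT1 : ∀ u ∈ E, T1 (Φ u) = τ u • T1 h0 := fun u hu => (hB2 h0 h0E u hu).1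
  -- (b)
  have key : ∀ v, Tm C F p m z v → PCO.Bd C (Es C F p j (Function.update z p v)) (Φ v) ∧
      ∀ a : ℝ, Φ v ≠ a • z j := by
    intro v hv
    have hvE : v ∈ E := Submodule.subset_span (Or.inr hv)
    have hvF : F (Function.update z p v) := hv.1
    have hvP : IsPES C Γ (Function.update z p v) := hSL.pes _ hvF
    have hvcl : v ∈ closure C := by
      have h := hvP.1.cl p
      rwa [Function.update_self] at h
    have hτv := hτ v hv
    have hbox := hBv v hv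
    set Ev : Submodule ℝ (V n) := Es C F p j (Function.update z p v) with hEv
    have hvEv : v ∈ Ev := by
      have h := hbox.mem p (by simp)
      rwa [Function.update_self] at h
    have hjEv : z j ∈ Ev := by
      have h := hbox.mem j (by simp)
      rwa [Function.update_of_ne hjp] at h
    have hΦEv : Φ v ∈ Ev := hB3 h0 h0E v hv
    have hT1v := ΦT1 v hvE
    have hT1cl : T1 (Φ v) ∈ closure C := by
      rw [hT1v]
      exact hP.cl_smul (P1pos _ h0cl) hτv.le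
    have hΦcl : Φ v ∈ closure C := by
      obtain ⟨M, hM, hM1⟩ := (hCes2 v hv).2.1
      refine cl_of_eps (f := (M + 1) • (v + z j)) fun ε hε => ?_
      obtain ⟨κ, hκ, hκ1⟩ := P1four (Φ v) hT1cl ε hε
      rw [compl_compl, fS_pair z hjp.symm] at hκ1
      set R := fS z ({p, j} : Finset (Fin K))ᶜ with hR
      have hupd : fS (Function.update z p v) ({p, j} : Finset (Fin K))ᶜ = R :=
        fS_update z p v (by simp)
      have hRcl : R ∈ closure C := fS_cl hP hzcl _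
      have hRm : R - z m ∈ closure C := by
        have h := fS_add_sdiff z (I := {m}) (J := ({p, j} : Finset (Fin K))ᶜ)
          (Finset.singleton_subset_iff.2 mem_j)
        rw [fS_single] at h
        have h2 : R - z m = fS z (({p, j} : Finset (Fin K))ᶜ \ {m}) := by
          rw [hR, ← h]; abel
        rw [h2]
        exact fS_cl hP hzcl _
      refine box_smul hP hbox (v := Φ v + ε • ((M + 1) • (v + z j)))
        (Ev.add_mem hΦEv (Ev.smul_mem _ (Ev.smul_mem _ (Ev.add_mem hvEv hjEv))))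
        (A := κ + ε * (M + 1)) (by positivity) ?_
      rw [hupd]
      have e : Φ v + ε • ((M + 1) • (v + z j)) + (κ + ε * (M + 1)) • R =
          (Φ v + ε • (z p + z j) + κ • R) +
            ε • ((M • (v + z m) - z p) + v + M • z j + M • (R - z m) + R) := by
        module
      rw [e]
      exact hP.cl_add hκ1 (hP.cl_smul (hP.cl_add (hP.cl_add (hP.cl_add (hP.cl_add hM1 hvcl)
        (hP.cl_smul (hzcl j) hM.le)) (hP.cl_smul hRm hM.le)) hRcl) hε.le)
    refine ⟨⟨hΦEv, hΦcl, ?_, ?_⟩, ?_⟩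
    · intro h
      rw [h, map_zero] at hT1v
      rcases smul_eq_zero.1 hT1v.symm with h1 | h1
      · linarith
      · exact h00 (inj1 _ h0E h1)
    · intro hU
      obtain ⟨M, hM, hM1⟩ := hU.2.2 (v + z j) (Ev.add_mem hvEv hjEv)
      have h1 := P1pos _ hM1
      rw [map_sub, map_smul, map_add, hT1v, hT1E v hvE] at h1
      apply h0u
      set δ : ℝ := min (τ v) 1 with hδ
      have hδ0 : 0 < δ := lt_min hτv one_pos
      have h2 : T1 ((M * τ v) • h0 - δ • (z p + z j)) ∈ closure C := by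
        rw [map_sub, map_smul, map_smul, map_add]
        have e : (M * τ v) • T1 h0 - δ • (T1 (z p) + T1 (z j)) =
            (M • τ v • T1 h0 - (τ v • T1 (z p) + T1 (z j))) +
              ((τ v - δ) • T1 (z p) + (1 - δ) • T1 (z j)) := by
          module
        rw [e]
        exact hP.cl_add h1 (hP.cl_add (hP.cl_smul (P1pos _ (hzcl p))
          (sub_nonneg.2 (min_le_left _ _))) (hP.cl_smul (P1pos _ (hzcl j))
          (sub_nonneg.2 (min_le_right _ _))))
      have h3 := Q1' _ (Ej.sub_mem (Ej.smul_mem _ h0E) (Ej.smul_mem _ (Ej.add_mem hpj hjj))) h2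
      have hUj : Unt C Ej (fS z {p, j}) :=
        ((Pool.Agent.NBT.H13.ibf n C hP K z hz.1).1 {p, j} Ej hBj).1
      rw [fS_pair z hjp.symm] at hUj
      refine ⟨h0E, h0cl, fun y hy => ?_⟩
      obtain ⟨M2, hM2, hM3⟩ := hUj.2.2 y hy
      refine ⟨M2 * δ⁻¹ * (M * τ v), by positivity, ?_⟩
      have e : (M2 * δ⁻¹ * (M * τ v)) • h0 - y =
          (M2 * δ⁻¹) • ((M * τ v) • h0 - δ • (z p + z j)) + (M2 • (z p + z j) - y) := by
        have e1 : M2 • (z p + z j) = (M2 * δ⁻¹) • δ • (z p + z j) := by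
          rw [smul_smul, mul_assoc, inv_mul_cancel₀ hδ0.ne', mul_one]
        rw [e1, smul_sub, smul_smul (M2 * δ⁻¹) (M * τ v)]
        abel
      rw [e]
      exact hP.cl_add (hP.cl_smul h3 (by positivity)) hM3
    · intro a h
      have h1 : T1 (τ v • h0 - a • z j) = 0 := by
        rw [map_sub, map_smul, map_smul, ← hT1v, h, map_smul, sub_self]
      have h2 := inj1 _ (Ej.sub_mem (Ej.smul_mem _ h0E) (Ej.smul_mem _ hjj)) h1
      have h3 : τ v • h0 = a • z j := sub_eq_zero.1 h2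
      apply h0ne ((τ v)⁻¹ * a)
      rw [mul_smul, ← h3, smul_smul, inv_mul_cancel₀ hτv.ne', one_smul]
  -- (c)
  have Φpos : ∀ u ∈ E, u ∈ closure C → Φ u ∈ closure C := by
    intro u hu hucl
    obtain ⟨s, u1, hs, hus, hu1⟩ :=
      (hSLD n C Γ hcc K hSL.three hSL.maxc z hz p m hmp.symm E hBm).1 u hu hucl
    rw [hus, map_add, map_smul, Φm]
    refine hP.cl_add (hP.cl_smul (hzcl m) hs) ?_
    rcases hu1 with h | ⟨h1, h2⟩
    · rw [h, map_zero]; exact hP.zero_cl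
    · exact (key u1 ((hSL.bd z Fz m hmJ u1).2 ⟨h1, h2⟩)).1.2.1
  -- (d)
  refine ⟨E.map Φ, ⟨?_, ?_⟩, ?_, ?_⟩
  · intro i hi
    rw [Finset.mem_insert, Finset.mem_singleton] at hi
    rcases hi with rfl | rfl
    · rw [Function.update_self, hback, ← Φp, ← map_smul]
      exact Submodule.mem_map_of_mem (E.smul_mem _ hpE)
    · rw [Function.update_of_ne hmp]
      exact ⟨z i, hmE, Φm⟩
  · rintro _ ⟨u, hu, rfl⟩ h
    rw [fS_update z p h' (by simp)] at h
    have h1 := P2pos _ h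
    rw [map_add, P2u, add_zero, ΦT2 u hu] at h1
    exact Φpos u hu ((T2iff u hu).1 h1)
  · have hinj : Function.Injective (Φ.domRestrict E) := by
      rw [← LinearMap.ker_eq_bot, LinearMap.ker_eq_bot']
      rintro ⟨u, hu⟩ h
      have h1 : Φ u = 0 := h
      have h2 := ΦT2 u hu
      rw [h1, map_zero] at h2
      exact Subtype.ext (inj2 u hu h2.symm)
    have h1 := LinearMap.finrank_range_of_inj hinj
    rw [LinearMap.range_domRestrict] at h1
    rw [h1]
    exact hSL.dim z Fz m hmJ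
  · rintro _ ⟨⟨u, hu, rfl⟩, hgcl, hg0, hgu⟩ hgm
    have hgm' : ∀ a : ℝ, Φ u ≠ a • z m := hgm
    have hgcl' : Φ u ∈ closure C := hgcl
    have hg0' : Φ u ≠ 0 := hg0
    have hucl : u ∈ closure C := by
      refine (T2iff u hu).1 ?_
      rw [← ΦT2 u hu]
      exact P2pos _ hgcl'
    have hu0 : u ≠ 0 := by
      rintro rfl
      exact hg0' (map_zero _)
    have hunu : ¬ Unt C E u := by
      intro hU
      apply hgu
      refine ⟨Submodule.mem_map_of_mem hu, hgcl, ?_⟩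
      rintro _ ⟨u', hu', rfl⟩
      obtain ⟨M, hM, hM1⟩ := hU.2.2 u' hu'
      refine ⟨M, hM, ?_⟩
      have h1 := Φpos _ (E.sub_mem (E.smul_mem _ hu) hu') hM1
      rw [map_sub, map_smul] at h1
      exact h1
    have hum : ∀ a : ℝ, u ≠ a • z m := by
      intro a h
      apply hgm' a
      rw [h, map_smul, Φm]
    have hTm : Tm C F p m z u := (hSL.bd z Fz m hmJ u).2 ⟨⟨hu, hucl, hu0, hunu⟩, hum⟩
    exact ⟨u, hTm, key u hTm⟩

end Pool.Agent.VMX.H25
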