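import Pool.Agent.VMX.StmtsC

/-!
# VMX squad, row LGF: from the invariant box to the invariant face
-/

set_option autoImplicit false

open Matrix Filter Topology

namespace Pool.Agent.VMX.H25

open Pool.Agent.PFS Pool.Agent.PFJ Pool.Agent.NBT Pool.Agent.VMX

theorem lgf : LgfStmt := by
  intro n k C Γ hcc T hT a ε σ w z L g s lam hε hkε h
  have hP : PCone C := hcc.toPCone
  have hw : IsPES C Γ w := hT.pes w h.tw
  have hwcl : ∀ i, w i ∈ closure C := fun i => hw.1.cl i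
  refine ⟨hw, h.gm, h.s0, h.l1, h.l2, ?_, h.e0, h.ei, fun i hi => (h.nr i hi).2⟩
  have hI := (Pool.Agent.NBT.H64.ibi n C Γ hcc (k + 1) w hwcl).2.1 g h.gm s h.s0 {0}ᶜ
  rw [← hI]
  unfold BI
  set f' : V n := fS w ({0} : Finset (Fin (k + 1)))ᶜ with hf'
  have hf'cl : f' ∈ closure C := fS_cl hP hwcl _
  obtain ⟨-, -, h3, -, h5⟩ := fcs n C hP f' hf'cl
  have hmem : ∀ i, i ∈ ({0} : Finset (Fin (k + 1)))ᶜ ↔ i ≠ 0 := by
    intro i
    rw [Finset.mem_compl, Finset.mem_singleton]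
  have hf'' : fS (fun i => s • act g (w i)) ({0} : Finset (Fin (k + 1)))ᶜ =
      ∑ i ∈ ({0} : Finset (Fin (k + 1)))ᶜ, Real.exp (a i * σ) • z i := by
    unfold fS
    exact Finset.sum_congr rfl fun i hi => h.ei i ((hmem i).1 hi)
  rw [hf'']
  obtain ⟨f2, hf2⟩ : ∃ f2 : V n, f2 =
      ∑ i ∈ ({0} : Finset (Fin (k + 1)))ᶜ, Real.exp (a i * σ) • z i := ⟨_, rfl⟩
  rw [← hf2]
  -- upper bound of `z i`
  have hzle : ∀ i, i ≠ 0 → (1 + ε) • f' - z i ∈ closure C := by
    intro i hi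
    have h1 := (h.nr i hi).2.2.1
    have h2 : f' - w i ∈ closure C := by
      have h4 := fS_add_sdiff w (I := {i}) (J := ({0} : Finset (Fin (k + 1)))ᶜ)
        (Finset.singleton_subset_iff.2 ((hmem i).2 hi))
      rw [fS_single] at h4
      have h6 : f' - w i = fS w (({0} : Finset (Fin (k + 1)))ᶜ \ {i}) := by
        rw [hf', ← h4]; abel
      rw [h6]
      exact fS_cl hP hwcl _
    have e : (1 + ε) • f' - z i = (f' - w i) + (ε • f' - (z i - w i)) := by
      rw [add_smul, one_smul]; abel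
    rw [e]
    exact hP.cl_add h2 h1
  obtain ⟨M1, hM1⟩ : ∃ M1 : ℝ, M1 = (∑ i ∈ ({0} : Finset (Fin (k + 1)))ᶜ,
      Real.exp (a i * σ)) * (1 + ε) := ⟨_, rfl⟩
  have hM10 : 0 ≤ M1 := by
    rw [hM1]
    exact mul_nonneg (Finset.sum_nonneg fun i _ => (Real.exp_pos _).le) (by linarith)
  have hup : M1 • f' - f2 ∈ closure C := by
    have e : M1 • f' - f2 = ∑ i ∈ ({0} : Finset (Fin (k + 1)))ᶜ,
        Real.exp (a i * σ) • ((1 + ε) • f' - z i) := by
      simp only [smul_sub]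
      rw [Finset.sum_sub_distrib, hf2, hM1, mul_smul, Finset.sum_smul]
    rw [e]
    exact hP.cl_sum fun i hi => hP.cl_smul (hzle i ((hmem i).1 hi)) (Real.exp_pos _).le
  -- lower bound
  obtain ⟨δ, hδ, hδ1⟩ := Pool.Agent.NBT.H64.exists_eps (fun i : Fin (k + 1) => Real.exp (a i * σ))
    (fun i => Real.exp_pos _)
  have hsum : (∑ i ∈ ({0} : Finset (Fin (k + 1)))ᶜ, z i) - (1 / 2 : ℝ) • f' ∈ closure C := by
    have hcard : (({0} : Finset (Fin (k + 1)))ᶜ).card = k := by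
      rw [Finset.card_compl, Finset.card_singleton, Fintype.card_fin, Nat.add_sub_cancel]
    have e : (∑ i ∈ ({0} : Finset (Fin (k + 1)))ᶜ, z i) - (1 / 2 : ℝ) • f' =
        (∑ i ∈ ({0} : Finset (Fin (k + 1)))ᶜ, (ε • f' + (z i - w i))) +
          (1 / 2 - (k : ℝ) * ε) • f' := by
      rw [Finset.sum_add_distrib, Finset.sum_const, hcard, Finset.sum_sub_distrib]
      have e1 : ∑ i ∈ ({0} : Finset (Fin (k + 1)))ᶜ, w i = f' := rfl
      rw [e1, ← Nat.cast_smul_eq_nsmul ℝ]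
      module
    rw [e]
    refine hP.cl_add (hP.cl_sum fun i hi => (h.nr i ((hmem i).1 hi)).2.2.2) (hP.cl_smul hf'cl ?_)
    nlinarith
  have hlow : f2 - (δ / 2) • f' ∈ closure C := by
    have e : f2 - (δ / 2) • f' = (∑ i ∈ ({0} : Finset (Fin (k + 1)))ᶜ,
        (Real.exp (a i * σ) - δ) • z i) +
          δ • ((∑ i ∈ ({0} : Finset (Fin (k + 1)))ᶜ, z i) - (1 / 2 : ℝ) • f') := by
      simp only [sub_smul]
      rw [Finset.sum_sub_distrib, ← hf2, ← Finset.smul_sum]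
      module
    rw [e]
    refine hP.cl_add (hP.cl_sum fun i hi => hP.cl_smul (h.nr i ((hmem i).1 hi)).2.1
      (sub_nonneg.2 (hδ1 i).1)) (hP.cl_smul hsum hδ.le)
  refine h5 f2 ((h3 f2).1 ⟨min (δ / 2) (1 / (M1 + 1)), lt_min (by positivity) (by positivity),
    ?_, ?_⟩)
  · set e0 : ℝ := min (δ / 2) (1 / (M1 + 1)) with he0
    have he0p : 0 < e0 := lt_min (by positivity) (by positivity)
    have he1 : e0 * M1 ≤ 1 := by
      have h6 : e0 ≤ 1 / (M1 + 1) := min_le_right _ _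
      have h7 : e0 * (M1 + 1) ≤ 1 := by
        rw [le_div_iff₀ (by positivity)] at h6
        exact h6
      nlinarith
    have e : f' - e0 • f2 = (1 - e0 * M1) • f' + e0 • (M1 • f' - f2) := by module
    rw [e]
    exact hP.cl_add (hP.cl_smul hf'cl (by linarith)) (hP.cl_smul hup he0p.le)
  · set e0 : ℝ := min (δ / 2) (1 / (M1 + 1)) with he0
    have he1 : e0 ≤ δ / 2 := min_le_left _ _
    have e : f2 - e0 • f' = (f2 - (δ / 2) • f') + (δ / 2 - e0) • f' := by module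
    rw [e]
    exact hP.cl_add hlow (hP.cl_smul hf'cl (by linarith))

end Pool.Agent.VMX.H25
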