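import Pool.Agent.VMX.StmtsF
import Pool.Agent.Helper37_PFS.Main

/-!
# VMX squad, row PLM: a largest eigenvector for every eigenvalue
-/

set_option autoImplicit false

open Matrix Filter Topology

namespace Pool.Agent.VMX.H25

open Pool.Agent.PFS Pool.Agent.PFJ Pool.Agent.NBT Pool.Agent.VMX

/-- **Row PLM.** -/
theorem plm : PlmStmt := by
  classical
  intro n C Γ h g hg s hs hno lam hex
  set D : Set (V n) := {v | Eg C Γ g s lam v} with hD
  obtain ⟨b, hbD, hbs, hbl⟩ := exists_linearIndependent ℝ D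
  have hfin : Finite b := hbl.finite
  have : Fintype b := Fintype.ofFinite b
  have hbE : ∀ j : b, Eg C Γ g s lam (j : V n) := fun j => hbD j.2
  have hbne : ∀ j : b, (j : V n) ≠ 0 := fun j => hbl.ne_zero j
  have hH := h.hul
  -- `b` is nonempty
  have hne : Nonempty b := by
    by_contra hemp
    rw [not_nonempty_iff] at hemp
    obtain ⟨v, hv⟩ := hex
    have hv0 : v ≠ 0 := hH.lamNe v hv.1
    have hb0 : b = ∅ := Set.isEmpty_coe_sort.mp hemp
    have hvs : v ∈ Submodule.span ℝ D := Submodule.subset_span hv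
    rw [← hbs, hb0, Submodule.span_empty, Submodule.mem_bot] at hvs
    exact hv0 hvs
  -- coordinates are bounded
  let L : (b → ℝ) →ₗ[ℝ] V n := Fintype.linearCombination ℝ (fun j : b => (j : V n))
  have hL : ∀ c : b → ℝ, L c = ∑ j, c j • (j : V n) := fun c => by
    simp only [L, Fintype.linearCombination_apply]
  have hinj : Function.Injective L := hbl.fintypeLinearCombination_injective
  obtain ⟨K, hK0, hK⟩ := L.exists_antilipschitzWith (LinearMap.ker_eq_bot.mpr hinj)
  have hbd : ∀ (c : b → ℝ) (j : b), |c j| ≤ K * ‖L c‖ := by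
    intro c j
    have h1 := hK.le_mul_dist c 0
    rw [map_zero, dist_zero_right, dist_zero_right] at h1
    exact (norm_le_pi_norm c j).trans h1
  -- the sum
  set p : V n := ∑ j : b, (j : V n) with hp
  have hcl : ∀ j : b, (j : V n) ∈ closure C := fun j => hH.lamCl _ (hbE j).1
  have hpe : s • act g p = lam • p := by
    rw [hp, CC.act_sum, Finset.smul_sum, Finset.smul_sum]
    exact Finset.sum_congr rfl fun j _ => (hbE j).2
  have hpC : p ∉ C := fun hpC => hno p hpC lam hpe
  have hp0 : p ≠ 0 := by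
    intro h0
    obtain ⟨j⟩ := hne
    have h1 : p = (j : V n) + ∑ i ∈ Finset.univ.erase j, (i : V n) := by
      rw [hp, Finset.add_sum_erase _ _ (Finset.mem_univ j)]
    have h2 : ∑ i ∈ Finset.univ.erase j, (i : V n) ∈ closure C :=
      h.toPCone.cl_sum fun i _ => hcl i
    have h3 : -((j : V n)) = ∑ i ∈ Finset.univ.erase j, (i : V n) := by
      rw [h0] at h1
      exact neg_eq_of_add_eq_zero_right h1.symm
    exact hbne j (h.salient _ (hcl j) (h3 ▸ h2))
  have hpH : p ∈ Hull C Γ := by
    have hS : ∀ S : Finset b, S.Nonempty → ∑ j ∈ S, (j : V n) ∈ Hull C Γ := by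
      intro S hS
      induction hS using Finset.Nonempty.cons_induction with
      | singleton a => rw [Finset.sum_singleton]; exact hH.lamHull _ (hbE a).1
      | cons a S ha hS ih =>
        rw [Finset.sum_cons]
        exact hH.add _ (hH.lamHull _ (hbE a).1) _ ih
    exact hS Finset.univ Finset.univ_nonempty
  have hpL : p ∈ LamC C Γ :=
    Pool.Agent.PFS.H37.cloF n C Γ h (fun _ => p) p (fun _ => hpH) tendsto_const_nhds hpC hp0
  refine ⟨p, K, ⟨hpL, hpe⟩, hK0, fun v hv => ?_⟩
  have hvs : v ∈ Submodule.span ℝ (Set.range (fun j : b => (j : V n))) := by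
    rw [Subtype.range_coe, hbs]
    exact Submodule.subset_span hv
  obtain ⟨c, hc⟩ := (Submodule.mem_span_range_iff_exists_fun ℝ).mp hvs
  have hLv : L c = v := (hL c).trans hc
  have he : (K * ‖v‖) • p - v = ∑ j : b, ((K : ℝ) * ‖v‖ - c j) • (j : V n) := by
    simp only [sub_smul, Finset.sum_sub_distrib]
    rw [hc, hp, Finset.smul_sum]
  rw [he]
  refine h.toPCone.cl_sum fun j _ => h.toPCone.cl_smul (hcl j) ?_
  have h1 := hbd c j
  rw [hLv] at h1
  have h2 := (abs_le.mp h1).2
  linarith

end Pool.Agent.VMX.H25
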